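import Mathlib
import Pool.Agent.Y760.ZF.Prod

/-!
# Polynomial relations between multiple zeta values are stuffle relations, algebraic coefficients

Sums of at most `N` products of at most `d` multiple zeta values of depth at most `r`, whose first
argument is at least `n` and whose arguments are at most `κ n` and otherwise arbitrary, with
coefficients in the lattice generated by real algebraic numbers `β_1, …, β_l`, coordinates at most
`C ^ n`: either the sum vanishes identically in the stuffle algebra, or it is larger than `B ^ (-n)`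
in absolute value. The constant `C` is arbitrary, `B` and `n0` do not depend on the arguments.
-/

set_option autoImplicit false

namespace Pool.Agent.Results.MP_e54452_nt.UniformStuffleRelations

/-- `trunc [s_1, ..., s_r] m` is the sum of `∏ k_i ^ (-s_i)` over `m > k_1 > ... > k_r ≥ 1` -/
noncomputable def trunc : List ℕ → ℕ → ℝ
  | [], _ => 1
  | s :: l, m => ∑ j ∈ Finset.Ico 1 m, trunc l j / (j : ℝ) ^ s

/-- the multiple zeta value `ζ(s_1, ..., s_r)`, `s_1` belongs to the largest variable -/
noncomputable def mzv : List ℕ → ℝ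
  | [] => 1
  | s :: l => ∑' k : ℕ, trunc l (k + 1) / ((k + 1 : ℕ) : ℝ) ^ s

/-- the stuffle product of two indices, as a list of indices -/
def stuffle : List ℕ → List ℕ → List (List ℕ)
  | [], l => [l]
  | i :: k, [] => [i :: k]
  | i :: k, j :: l => (stuffle k (j :: l)).map (i :: ·) ++ (stuffle (i :: k) l).map (j :: ·) ++
      (stuffle k l).map ((i + j) :: ·)
termination_by k l => k.length + l.length

/-- the stuffle product of several indices -/
def stuffles : List (List ℕ) → List (List ℕ)
  | [] => [[]]
  | u :: M => (stuffles M).flatMap (stuffle u)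

/-- the indices of depth at most `r` whose first argument is at least `n` and whose arguments are
positive and at most `κ n` -/
def Admissible (r : ℕ) (κ : ℝ) (n : ℕ) (w : List ℕ) : Prop :=
  w.length ≤ r ∧ (∀ m ∈ w, 1 ≤ m ∧ (m : ℝ) ≤ κ * n) ∧ ∀ k ∈ w.head?, n ≤ k

/-- the `j`-th coordinate of the coefficient of the index `w` in the stuffle expansion of the
combination `∑ c M • M` of the products `M ∈ T` -/
def coeff {l : ℕ} (T : Finset (List (List ℕ))) (c : List (List ℕ) → Fin l → ℤ) (w : List ℕ)
    (j : Fin l) : ℤ := ∑ M ∈ T, c M j * ((stuffles M).countP (· = w) : ℤ)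

/-- the value `∑ (∑_j β_j c M j) ∏_{u ∈ M} ζ(u)` -/
noncomputable def value {l : ℕ} (β : Fin l → ℝ) (T : Finset (List (List ℕ)))
    (c : List (List ℕ) → Fin l → ℤ) : ℝ :=
  ∑ M ∈ T, (∑ j, β j * c M j) * (M.map mzv).prod

/-- Let `β_1, …, β_l` be real algebraic numbers which are linearly independent over the rational
numbers. For all natural numbers `N`, `r`, `d` and all real numbers `κ`, `C` there are `B > 1` and
`n0` such that for all `n ≥ n0`, all sets `T` of at most `N` products of at most `d` admissible
indices and all families `c` of integers of absolute value at most `C ^ n`: either all coefficients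
of the stuffle expansion of `∑ (∑_j β_j c M j) • M` vanish, and the value is zero, or the value is
larger than `B ^ (-n)` in absolute value. -/
theorem result {l : ℕ} (β : Fin l → ℝ) (hβ : ∀ j, IsAlgebraic ℚ (β j))
    (hli : LinearIndependent ℚ β) (N r d : ℕ) (κ C : ℝ) :
    ∃ B : ℝ, 1 < B ∧ ∃ n0 : ℕ, ∀ n : ℕ, n0 ≤ n → ∀ T : Finset (List (List ℕ)), T.card ≤ N →
      (∀ M ∈ T, M.length ≤ d ∧ ∀ u ∈ M, Admissible r κ n u) →
      ∀ c : List (List ℕ) → Fin l → ℤ, (∀ M ∈ T, ∀ j, |(c M j : ℝ)| ≤ C ^ n) →
      ((∀ w j, coeff T c w j = 0) ∧ value β T c = 0) ∨ (B ^ n)⁻¹ < |value β T c| := by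
  have h1 : ∀ l m, trunc l m = Pool.Agent.Y760.ZG.hr l m := by
    intro l
    induction l with
    | nil => intro m; rw [trunc, Pool.Agent.Y760.ZG.hr]
    | cons s l ih =>
      intro m
      rw [trunc, Pool.Agent.Y760.ZG.hr]
      exact Finset.sum_congr rfl fun j _ => by rw [ih]
  have h2 : ∀ l, mzv l = Pool.Agent.Y760.ZG.mz l := by
    intro l
    cases l with
    | nil => rw [mzv, Pool.Agent.Y760.ZG.mz]
    | cons s l =>
      rw [mzv, Pool.Agent.Y760.ZG.mz]
      exact tsum_congr fun k => by rw [h1]
  have h3 : ∀ u v, stuffle u v = Pool.Agent.Y760.ZF.sti u v := by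
    intro u v
    induction u, v using Pool.Agent.Y760.ZF.sti.induct with
    | case1 v => rw [stuffle, Pool.Agent.Y760.ZF.sti]
    | case2 x u => rw [stuffle, Pool.Agent.Y760.ZF.sti]
    | case3 x u y v ih1 ih2 ih3 => rw [stuffle, Pool.Agent.Y760.ZF.sti, ih1, ih2, ih3]
  have h4 : ∀ M, stuffles M = Pool.Agent.Y760.ZF.stil M := by
    intro M
    induction M with
    | nil => rw [stuffles, Pool.Agent.Y760.ZF.stil]
    | cons u M ih =>
      rw [stuffles, Pool.Agent.Y760.ZF.stil, ih]
      congr 1
      funext v
      exact h3 u v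
  have h5 : ∀ (T : Finset (List (List ℕ))) (c : List (List ℕ) → Fin l → ℤ) w j,
      coeff T c w j = Pool.Agent.Y760.ZF.co T c w j := by
    intro T c w j
    rw [coeff, Pool.Agent.Y760.ZF.co]
    simp only [h4]
  have h6 : ∀ (T : Finset (List (List ℕ))) (c : List (List ℕ) → Fin l → ℤ),
      value β T c = ∑ M ∈ T, (∑ j, β j * c M j) * (M.map Pool.Agent.Y760.ZG.mz).prod := by
    intro T c
    rw [value, funext h2]
  simp only [h5, h6]
  exact Pool.Agent.Y760.ZF.mainM β hβ hli N r d κ C

end Pool.Agent.Results.MP_e54452_nt.UniformStuffleRelations
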